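import Pool.Agent.H.MP_830e61_lc.CH.Dec
import Pool.Agent.H.MP_830e61_lc.CH.Fin

/-!
MP_830e61_lc: for EVERY variety `V` of bands (in particular all bands, Question 1) and every
Birkhoff operator `K` in which no `H` is applied after an `S`, membership in `K(R_V)` is decidable on
the class of tame semigroups; for example all semigroups whose non-regular principal right (or left)
ideals form a chain. A tame finite semigroup that embeds in a possibly infinite member embeds in a
finite one of explicitly bounded size.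
-/

namespace Pool.Agent.Results.MP_830e61_lc.ComparableIdeals

open Pool.Agent.H.MP_830e61_lc Pool.Agent.H.MP_830e61_lc.VS Pool.Agent.H.MP_830e61_lc.CH

theorem result :
    (∀ (V : List Idty) (K : List Op), (∀ A B, K = A ++ Op.H :: B → Op.S ∉ B) →
      Recursive (tame (birkhoff K (RVs V)))) ∧
    (∀ (V : List Idty) (S : Type) [Semigroup S] [Finite S], Tame S →
      ∀ (T : Type) [Semigroup T], Regular T → IdemClosed T → Sat V T →
      ∀ φ : S →ₙ* T, Function.Injective φ →
      ∃ (T' : Type) (_ : Semigroup T'), Finite T' ∧ Nat.card T' ≤ bnd (Nat.card S) ∧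
        Regular T' ∧ IdemClosed T' ∧ Sat V T' ∧ ∃ ψ : S →ₙ* T', Function.Injective ψ) ∧
    (∀ (S : Type) [Semigroup S],
      (∀ s t : S, (¬ ∃ x, s * x * s = s) → (¬ ∃ x, t * x * t = t) →
        s = t ∨ (∃ x, t = s * x) ∨ ∃ x, s = t * x) → Tame S) ∧
    (∀ (S : Type) [Semigroup S],
      (∀ s t : S, (¬ ∃ x, s * x * s = s) → (¬ ∃ x, t * x * t = t) →
        s = t ∨ (∃ x, t = x * s) ∨ ∃ x, s = x * t) → Tame S) :=
  ⟨main_tame, fun V S _ _ hS T _ h1 h2 h3 φ h4 => emb_tame V S hS T h1 h2 h3 φ h4,
    fun S _ h => tame_right S h, fun S _ h => tame_left S h⟩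

end Pool.Agent.Results.MP_830e61_lc.ComparableIdeals
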