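import Pool.Agent.H.MP_830e61_lc.CH.HlB

/-!
MP_830e61_lc: for EVERY variety `V` of bands a finite semigroup that embeds in a possibly infinite
regular semigroup `T` whose idempotents form a finite band in `V` embeds in a finite one, of explicitly
bounded size.
-/

namespace Pool.Agent.Results.MP_830e61_lc.FinitelyManyIdempotents

open Pool.Agent.H.MP_830e61_lc Pool.Agent.H.MP_830e61_lc.VS Pool.Agent.H.MP_830e61_lc.CH

theorem result (V : List Idty) (S : Type) [Semigroup S] [Finite S] (T : Type) [Semigroup T]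
    (h1 : Regular T) (h2 : IdemClosed T) (h3 : Sat V T) (h4 : {e : T | e * e = e}.Finite)
    (φ : S →ₙ* T) (h5 : Function.Injective φ) :
    ∃ (T' : Type) (_ : Semigroup T'), Finite T' ∧
      Nat.card T' ≤ ((Nat.card S + 1) * Nat.card S + 1) ^ ((Nat.card S + 1) * Nat.card S) *
        ({e : T | e * e = e}.ncard ^ {e : T | e * e = e}.ncard) ^ 2 ∧
      Regular T' ∧ IdemClosed T' ∧ Sat V T' ∧ ∃ ψ : S →ₙ* T', Function.Injective ψ :=
  emb_fin V S T h1 h2 h3 h4 φ h5

end Pool.Agent.Results.MP_830e61_lc.FinitelyManyIdempotents
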