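import Pool.Agent.H.MP_830e61_lc.N3.NotB

/-!
MP_830e61_lc: for every variety `V` of bands and every Birkhoff operator `K`, membership in
`K(R_V)` is decidable for the finite semigroups `S` in which all products of three elements are
equal. If `V` contains the semilattices and is not contained in the join of the varieties of left
and right semi-normal bands (for instance `V` = all bands), such an `S` with `n` elements embeds in
an orthodox semigroup if and only if it embeds in a member of `R_V` with at most `bound n`
elements, if and only if each of its nonzero elements is separated from zero by a homomorphism to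
an inverse semigroup.
-/

namespace Pool.Agent.Results.MP_830e61_lc.NilpotentInputs

open Pool.Agent.H.MP_830e61_lc Pool.Agent.H.MP_830e61_lc.VS Pool.Agent.H.MP_830e61_lc.N3

theorem result :
    (∀ (V : List Idty) (K : List Op), Recursive (nil3 (birkhoff K (RVs V)))) ∧
    (∀ V : List Idty, SameCont V → ¬ Below V → ∀ (S : Type) [Semigroup S] [Finite S] (z : S),
      (∀ a b c : S, a * b * c = z) →
      ((∃ (T : Type) (_ : Semigroup T), Regular T ∧ IdemClosed T ∧
          ∃ φ : S →ₙ* T, Function.Injective φ) ↔
        ∃ (T : Type) (_ : Semigroup T), Finite T ∧ Nat.card T ≤ bound (Nat.card S) ∧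
          Regular T ∧ IdemClosed T ∧ Sat V T ∧ ∃ φ : S →ₙ* T, Function.Injective φ) ∧
      ((∃ (T : Type) (_ : Semigroup T), Regular T ∧ IdemClosed T ∧
          ∃ φ : S →ₙ* T, Function.Injective φ) ↔
        ∀ s, s ≠ z → ∃ (J : Type) (_ : Semigroup J), Regular J ∧
          (∀ e f : J, e * e = e → f * f = f → e * f = f * e) ∧ ∃ ψ : S →ₙ* J, ψ s ≠ ψ z)) ∧
    ¬ Below [] :=
  ⟨main3V, fun V hV hB S _ _ z hz => equivs V hV hB S z hz, not_below_nil⟩

end Pool.Agent.Results.MP_830e61_lc.NilpotentInputs
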