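import Pool.Agent.H.MP_830e61_lc.VS.Emb
import Pool.Agent.H.MP_830e61_lc.VS.Ops2
import Pool.Agent.H.MP_830e61_lc.VS.Join

/-!
MP_830e61_lc: for every variety `V` of bands satisfying `xyzxywz = xyzxyzywz` and the dual
identity (in particular for every `V` contained in the join of the varieties of left and right
semi-normal bands), `K(R_V)` is decidable for every Birkhoff operator `K` in which no `H` is
applied after an `S`; in particular `S(R_V)` is decidable.  Finite semigroups embeddable in a
(possibly infinite) regular semigroup whose idempotents form a band in `V` embed in a finite one of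
explicitly bounded size.
-/

namespace Pool.Agent.Results.MP_830e61_lc.SemiNormalBands

open Pool.Agent.H.MP_830e61_lc Pool.Agent.H.MP_830e61_lc.VS

theorem result :
    (∀ V : List Idty, Below V → ∀ K : List Op, (∀ A B, K = A ++ Op.H :: B → Op.S ∉ B) →
      Recursive (birkhoff K (RVs V))) ∧
    (∀ V : List Idty, Below V →
      ((∀ K : List Op, Recursive (birkhoff K (RVs V))) ↔ Recursive (opH (opS (RVs V))))) ∧
    (∀ V : List Idty, Below V → ∀ (S : Type) [Semigroup S] [Finite S] (T : Type) [Semigroup T],
      Regular T → IdemClosed T → Sat V T → ∀ φ : S →ₙ* T, Function.Injective φ →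
      ∃ (T' : Type) (_ : Semigroup T'), Finite T' ∧ Nat.card T' ≤ bnd (Nat.card S) ∧
        Regular T' ∧ IdemClosed T' ∧ Sat V T' ∧ ∃ ψ : S →ₙ* T', Function.Injective ψ) ∧
    (∀ V : List Idty, InJoin V → Below V) ∧
    (∀ W : BandVar, ∃ V : List Idty, Below V ∧
      ∀ (T : Type) [Semigroup T], Sat V T ↔ W.Idem T) ∧
    (∀ V : List Idty, ¬ SameCont V → ∀ K : List Op, Recursive (birkhoff K (RVs V))) :=
  ⟨fun V hV K hK => main V (emb V hV) K hK, fun V hV => main_iff V (emb V hV),
    fun V hV => emb V hV, fun _ h => below_of_join h,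
    fun W => ⟨[idW W], below_idW W, fun T _ => sat_idW W T⟩, main_rect⟩

end Pool.Agent.Results.MP_830e61_lc.SemiNormalBands
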